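import Mathlib
import Pool.Agent.MP_ee8c61_ag.H95T.Final

/-! Strong monodromy conjecture with multiplicities for products of ideals generated by
polynomials of degree at most one, in particular for all hyperplane arrangements. -/

namespace Pool.Agent.Results.MP_ee8c61_ag.LinearProducts

open AlgebraicGeometry Pool.Agent.MP_ee8c61_ag Pool.Agent.MP_ee8c61_ag.H95

/-- The `f i` generate the product of the ideals `(V j)`, `π` is any log resolution of it, and
`zeta E a k χ` is its topological zeta function. -/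
theorem result {N m r : ℕ} (V : Fin m → Set (MvPolynomial (Fin N) ℂ))
    (hV : ∀ j, ∀ p ∈ V j, p.totalDegree ≤ 1) (f : Fin r → MvPolynomial (Fin N) ℂ)
    (hf : Ideal.span (Set.range f) = ∏ j, Ideal.span (V j)) (b : Polynomial ℂ)
    (hb : H10.IsBS f b) (Y : Scheme.{0}) (π : Y ⟶ Aff N) (J : Type) [Fintype J] (E : J → Set Y)
    (a k : J → ℕ) (hY : IsLogRes (Ideal.span (Set.range f)) π E a k) (χ : Set Y → ℤ)
    (hχ : IsChi π χ) :
    ∃ Q : Polynomial ℂ, algebraMap (Polynomial ℂ) (RatFunc ℂ) b * zeta E a k χ =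
      algebraMap (Polynomial ℂ) (RatFunc ℂ) Q :=
  H95T.final_of H95T.shz H95T.srt H95T.crows.z V hV f hf b hb Y π J E a k hY χ hχ

end Pool.Agent.Results.MP_ee8c61_ag.LinearProducts
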