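import Mathlib
import Pool.Agent.MP_ee8c61_ag.TY.Final

/-! The divisors of the log canonical model give roots of the Bernstein-Sato polynomial. -/

namespace Pool.Agent.Results.MP_ee8c61_ag.LogCanonicalDivisors

open MvPolynomial Pool.Agent.MP_ee8c61_ag Pool.Agent.MP_ee8c61_ag.TW Pool.Agent.MP_ee8c61_ag.TY

/-- `O` is the ring of a divisor over the chart `j` of the blow-up of the ideal `(f i)`, and the
forms `g l (dx) ^ m` have independent residues with logarithmic poles on it. -/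
theorem result {n r : ℕ} (f : Fin r → MvPolynomial (Fin (n + 1)) ℂ) (b : Polynomial ℂ)
    (hb : H10.IsBS f b) (j : Fin r) (O : ValuationSubring (K (n + 1)))
    (hO : IsDiscreteValuationRing O) (h1 : ∀ p, rf p ∈ O) (h2 : ∀ i, rf (f i) / rf (f j) ∈ O)
    (h3 : f j ≠ 0) (h4 : O.valuation (rf (f j)) < 1) (a k : ℕ) (hak : Orders (f j) O a k)
    (m : ℕ) (hm : 0 < m) (g : Fin (n + 1) → K (n + 1))
    (hg : ∀ l, ∃ (e : ℕ) (p : MvPolynomial (Fin (n + 1)) ℂ), g l * rf (f j) ^ e = rf p)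
    (hL : ∀ l, LogPoles f j O m (g l))
    (hI : ∀ P : MvPolynomial (Fin n) ℂ, P ≠ 0 →
      O.valuation (aeval (fun i : Fin n => g i.succ / g 0) P) = 1) :
    b.eval (-((k + 1 : ℂ) / a)) = 0 :=
  N3.LC.main n r f b j O a k m g hb hO h1 h2 h3 h4 hak hm hg hL hI

end Pool.Agent.Results.MP_ee8c61_ag.LogCanonicalDivisors
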