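import Mathlib
import Pool.Agent.MP_ee8c61_ag.H36.Final
import Pool.Agent.MP_ee8c61_ag.H95.All

/-! Strong monodromy conjecture for the topological zeta function of the ideals whose Cayley
polynomial is nondegenerate with respect to its Newton polyhedron. -/

namespace Pool.Agent.Results.MP_ee8c61_ag.NondegenerateIdeals

open AlgebraicGeometry Pool.Agent.MP_ee8c61_ag Pool.Agent.MP_ee8c61_ag.H95

/-- `π` is any log resolution of the ideal `(f j)`, and `zeta E a k χ` is its topological zeta
function. -/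
theorem result {r n : ℕ} (f : Fin r → MvPolynomial (Fin n) ℂ)
    (hf : ∀ w : Fin (r + n) → ℕ, H36.SmoothInTorus (H36.face (fun i => w i) (H36.cayley f)))
    (b : Polynomial ℂ) (hb : H10.IsBS f b)
    (Y : Scheme.{0}) (π : Y ⟶ Aff n) (J : Type) [Fintype J] (E : J → Set Y) (a k : J → ℕ)
    (hY : IsLogRes (Ideal.span (Set.range f)) π E a k) (χ : Set Y → ℤ) (hχ : IsChi π χ) (s₀ : ℂ)
    (hs : (zeta E a k χ).denom.eval s₀ = 0) : b.eval s₀ = 0 := by
  obtain ⟨χ', Φ, h1, h2, e⟩ := compare_all f (ne_of_smooth (hf 0)) hf hY hχ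
  exact H36.reduced hf (H36.bs r n f b hb) h1 h2 (e ▸ hs)

end Pool.Agent.Results.MP_ee8c61_ag.NondegenerateIdeals
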