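import Mathlib
import Pool.Agent.MP_ee8c61_ag.H95F.Final

/-! Strong monodromy conjecture with multiplicities for every ideal in at most three
variables. -/

namespace Pool.Agent.Results.MP_ee8c61_ag.SpaceStrong

open AlgebraicGeometry Pool.Agent.MP_ee8c61_ag Pool.Agent.MP_ee8c61_ag.H95

/-- `π` is any log resolution of the nonzero ideal `(f j)`, and `zeta E a k χ` is its topological
zeta function. -/
theorem result {N : ℕ} (hN : N ≤ 3) {r : ℕ} (f : Fin r → MvPolynomial (Fin N) ℂ)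
    (hf : ∃ j, f j ≠ 0) (b : Polynomial ℂ) (hb : H10.IsBS f b)
    (Y : Scheme.{0}) (π : Y ⟶ Aff N) (J : Type) [Fintype J] (E : J → Set Y) (a k : J → ℕ)
    (hY : IsLogRes (Ideal.span (Set.range f)) π E a k) (χ : Set Y → ℤ) (hχ : IsChi π χ) :
    ∃ Q : Polynomial ℂ, algebraMap (Polynomial ℂ) (RatFunc ℂ) b * zeta E a k χ =
      algebraMap (Polynomial ℂ) (RatFunc ℂ) Q :=
  H95F.main3 N hN r f b Y π J E a k χ hf hb hY hχ

end Pool.Agent.Results.MP_ee8c61_ag.SpaceStrong
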